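import Mathlib

/-!
# Lagrangian subspaces and determinants (for row HTV)
-/

set_option autoImplicit false

namespace PQ66

open Matrix

variable {C α : Type} [Field C] [Fintype α] [DecidableEq α]

/-- determinant of a symmetric matrix with a vanishing diagonal block -/
theorem det_block (A : Matrix α α C) (A' D : Matrix α α C) :
    (fromBlocks 0 A A' D).det = (-1) ^ Fintype.card α * (A.det * A'.det) := by
  have h1 : (fromBlocks (0 : Matrix α α C) (-1) (1 : Matrix α α C) 0) =
      fromBlocks (1 : Matrix α α C) (-1) 0 (1 : Matrix α α C) *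
        fromBlocks (1 : Matrix α α C) 0 (1 : Matrix α α C) (1 : Matrix α α C) *
        fromBlocks (1 : Matrix α α C) (-1) 0 (1 : Matrix α α C) := by
    rw [fromBlocks_multiply, fromBlocks_multiply]
    simp
  have h2 : (fromBlocks (0 : Matrix α α C) (-1) (1 : Matrix α α C) 0).det = 1 := by
    rw [h1, det_mul, det_mul, det_fromBlocks_zero₂₁, det_fromBlocks_zero₁₂]
    simp
  have h3 : fromBlocks 0 A A' D * fromBlocks (0 : Matrix α α C) (-1) (1 : Matrix α α C) 0 =
      fromBlocks A 0 D (-A') := by
    rw [fromBlocks_multiply]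
    simp
  have h4 := congrArg Matrix.det h3
  rw [det_mul, h2, mul_one, det_fromBlocks_zero₁₂, det_neg] at h4
  rw [h4]
  ring

/-- the invariant of a Lagrangian subspace, in terms of matrices -/
theorem lagr_mat (B : Matrix (α ⊕ α) (α ⊕ α) C) (hB : B.transpose = B) (hd : B.det ≠ 0)
    (X Z : Matrix (α ⊕ α) α C) (hY : (fromCols X Z).det ≠ 0) (hX : X.transpose * B * X = 0) :
    (X.transpose * B * Z).det ≠ 0 ∧
    ((fromCols X Z).det / (X.transpose * B * Z).det) ^ 2 * B.det = (-1) ^ Fintype.card α := by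
  set A := X.transpose * B * Z with hA
  have h1 : (fromCols X Z).transpose * B * fromCols X Z =
      fromBlocks 0 A A.transpose (Z.transpose * B * Z) := by
    rw [transpose_fromCols, fromRows_mul, fromRows_mul_fromCols, hX]
    congr 1
    rw [hA, transpose_mul, transpose_mul, transpose_transpose, hB, Matrix.mul_assoc]
  have h2 := congrArg Matrix.det h1
  rw [det_mul, det_mul, det_transpose, det_block, det_transpose] at h2
  have h3 : A.det ≠ 0 := by
    intro h
    rw [h] at h2
    simp only [mul_zero] at h2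
    exact (mul_ne_zero (mul_ne_zero hY hd) hY) h2
  refine ⟨h3, ?_⟩
  field_simp
  calc (fromCols X Z).det ^ 2 * B.det = (fromCols X Z).det * B.det * (fromCols X Z).det := by ring
    _ = _ := by rw [h2]; ring

/-- the invariant does not depend on the matrices -/
theorem lagr_indep (B : Matrix (α ⊕ α) (α ⊕ α) C)
    (X Z : Matrix (α ⊕ α) α C) (hY : (fromCols X Z).det ≠ 0) (hX : X.transpose * B * X = 0)
    (G : Matrix α α C) (Z' : Matrix (α ⊕ α) α C) :
    (fromCols (X * G) Z').det * (X.transpose * B * Z).det =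
      (fromCols X Z).det * ((X * G).transpose * B * Z').det := by
  have hu : IsUnit (fromCols X Z).det := isUnit_iff_ne_zero.2 hY
  set P : Matrix (α ⊕ α) α C := (fromCols X Z)⁻¹ * Z' with hP
  have h1 : Z' = X * P.toRows₁ + Z * P.toRows₂ := by
    have h2 : fromCols X Z * fromRows P.toRows₁ P.toRows₂ = X * P.toRows₁ + Z * P.toRows₂ :=
      fromCols_mul_fromRows _ _ _ _
    rw [← h2, fromRows_toRows, hP, ← Matrix.mul_assoc, Matrix.mul_nonsing_inv _ hu,
      Matrix.one_mul]
  have h3 : fromCols (X * G) Z' = fromCols X Z * fromBlocks G P.toRows₁ 0 P.toRows₂ := by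
    rw [h1, fromCols_mul_fromBlocks]
    simp
  have h4 : (X * G).transpose * B * Z' = G.transpose * (X.transpose * B * Z) * P.toRows₂ := by
    rw [transpose_mul, h1, Matrix.mul_add]
    have h5 : G.transpose * X.transpose * B * (X * P.toRows₁) =
        G.transpose * (X.transpose * B * X) * P.toRows₁ := by
      simp only [Matrix.mul_assoc]
    rw [h5, hX]
    simp only [Matrix.mul_assoc, Matrix.mul_zero, Matrix.zero_mul, zero_add]
  rw [h3, h4, det_mul, det_fromBlocks_zero₂₁, det_mul, det_mul, det_transpose]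
  ring

/-- the same for a subspace equal to its orthogonal space -/
theorem lagr (B : Matrix (α ⊕ α) (α ⊕ α) C) (hB : B.transpose = B) (hd : B.det ≠ 0)
    (W : Submodule C (α ⊕ α → C)) (hW : ∀ x, x ∈ W ↔ ∀ y ∈ W, x ⬝ᵥ B.mulVec y = 0) :
    ∃ t : C, t ≠ 0 ∧ t ^ 2 * B.det = (-1) ^ Fintype.card α ∧
      ∀ (g : Matrix (α ⊕ α) (α ⊕ α) C) (τ : C →+* C) (μ : C),
        g.transpose * B * g = μ • B → B.map τ = B →
        (∀ x ∈ W, g.mulVec (fun i => τ (x i)) ∈ W) →
        μ ^ Fintype.card α * t = g.det * τ t := by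
  classical
  -- the dimension
  set r := Fintype.card α with hr
  set b : LinearMap.BilinForm C (α ⊕ α → C) := Matrix.toBilin' B with hb
  have hbs : b.IsSymm := by
    refine ⟨fun x y => ?_⟩
    show b x y = b y x
    rw [hb, Matrix.toBilin'_apply', Matrix.toBilin'_apply', dotProduct_mulVec, ← mulVec_transpose,
      hB, dotProduct_comm]
  have hbn : b.Nondegenerate := by
    rw [hb]
    exact (Matrix.nondegenerate_toBilin'_iff).2 (Matrix.nondegenerate_of_det_ne_zero hd)
  have hWo : b.orthogonal W = W := by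
    ext x
    rw [LinearMap.BilinForm.mem_orthogonal_iff, hW x]
    refine forall₂_congr ?_
    intro y _
    show b y x = 0 ↔ _
    have h : b y x = b x y := hbs.eq y x
    rw [h, hb, Matrix.toBilin'_apply']
  have hdim : Module.finrank C W = r := by
    have h1 := LinearMap.BilinForm.finrank_orthogonal hbn W
    rw [hWo, Module.finrank_fintype_fun_eq_card, Fintype.card_sum] at h1
    have h2 : Module.finrank C W ≤ Module.finrank C (α ⊕ α → C) := Submodule.finrank_le W
    rw [Module.finrank_fintype_fun_eq_card, Fintype.card_sum] at h2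
    omega
  obtain ⟨W', hc⟩ := Submodule.exists_isCompl W
  have hdim' : Module.finrank C W' = r := by
    have h1 := Submodule.finrank_add_eq_of_isCompl hc
    rw [Module.finrank_fintype_fun_eq_card, Fintype.card_sum] at h1
    omega
  let b1 : Module.Basis α C W := (Module.finBasisOfFinrankEq C W hdim).reindex
    (Fintype.equivFin α).symm
  let b2 : Module.Basis α C W' := (Module.finBasisOfFinrankEq C W' hdim').reindex
    (Fintype.equivFin α).symm
  let bb : Module.Basis (α ⊕ α) C (α ⊕ α → C) := (b1.prod b2).map (W.prodEquivOfIsCompl W' hc)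
  set X : Matrix (α ⊕ α) α C := fun i k => (b1 k : α ⊕ α → C) i with hX
  set Z : Matrix (α ⊕ α) α C := fun i k => (b2 k : α ⊕ α → C) i with hZ
  have hYm : (Pi.basisFun C (α ⊕ α)).toMatrix bb = fromCols X Z := by
    ext i k
    rcases k with k | k
    · simp [Module.Basis.toMatrix_apply, bb, hX, fromCols, Module.Basis.prod_apply]
    · simp [Module.Basis.toMatrix_apply, bb, hZ, fromCols, Module.Basis.prod_apply]
  have hYd : (fromCols X Z).det ≠ 0 := by
    have h1 := (Pi.basisFun C (α ⊕ α)).isUnit_det bb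
    rw [Module.Basis.det_apply, hYm] at h1
    exact h1.ne_zero
  have hXW : ∀ k, (fun i => X i k) ∈ W := fun k => (b1 k).2
  have hXX : X.transpose * B * X = 0 := by
    ext k l
    have h1 := (hW _).1 (hXW k) _ (hXW l)
    rw [Matrix.mul_assoc, Matrix.mul_apply']
    exact h1
  have hrep : ∀ x ∈ W, ∃ c : α → C, x = X.mulVec c := by
    intro x hx
    refine ⟨fun k => b1.repr ⟨x, hx⟩ k, ?_⟩
    have h1 := congrArg (Subtype.val) (b1.sum_repr ⟨x, hx⟩)
    rw [AddSubmonoidClass.coe_finsetSum] at h1
    funext i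
    have h2 : _ = x i := congrFun h1 i
    rw [Finset.sum_apply] at h2
    rw [← h2, mulVec, dotProduct]
    refine Finset.sum_congr rfl ?_
    intro k _
    show b1.repr ⟨x, hx⟩ k * (b1 k : α ⊕ α → C) i = (b1 k : α ⊕ α → C) i * b1.repr ⟨x, hx⟩ k
    ring
  obtain ⟨hA, hl⟩ := lagr_mat B hB hd X Z hYd hXX
  refine ⟨(fromCols X Z).det / (X.transpose * B * Z).det, div_ne_zero hYd hA, hl, ?_⟩
  intro g τ μ hg hBτ hst
  have hG : ∃ G : Matrix α α C, g * X.map τ = X * G := by
    have h1 : ∀ k, ∃ c : α → C, g.mulVec (fun i => τ (X i k)) = X.mulVec c := fun k =>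
      hrep _ (hst _ (hXW k))
    choose c hc using h1
    refine ⟨fun l k => c k l, ?_⟩
    ext i k
    exact congrFun (hc k) i
  obtain ⟨G, hG⟩ := hG
  have h1 := lagr_indep B X Z hYd hXX G (g * Z.map τ)
  rw [← hG] at h1
  have h2 : fromCols (g * X.map τ) (g * Z.map τ) = g * (fromCols X Z).map τ := by
    rw [← mul_fromCols]
    congr 1
    ext i k
    rcases k with k | k <;> rfl
  have h3 : (g * X.map τ).transpose * B * (g * Z.map τ) = μ • (X.transpose * B * Z).map τ := by
    have h4 : (g * X.map τ).transpose * B * (g * Z.map τ) =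
        (X.map τ).transpose * (g.transpose * B * g) * Z.map τ := by
      rw [transpose_mul]
      simp only [Matrix.mul_assoc]
    rw [h4, hg, Matrix.map_mul, Matrix.map_mul, hBτ, Matrix.mul_smul, Matrix.smul_mul]
    rfl
  rw [h2, h3, det_mul, det_smul] at h1
  have h5 : ((fromCols X Z).map τ).det = τ (fromCols X Z).det := (RingHom.map_det τ _).symm
  have h6 : ((X.transpose * B * Z).map τ).det = τ (X.transpose * B * Z).det :=
    (RingHom.map_det τ _).symm
  rw [h5, h6] at h1
  have h7 : τ (X.transpose * B * Z).det ≠ 0 := by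
    rw [Ne, map_eq_zero]
    exact hA
  rw [map_div₀, mul_div_assoc', mul_div_assoc', div_eq_div_iff hA h7]
  rw [← hr] at h1
  linear_combination -h1

/-- the same for an arbitrary index set -/
theorem lagr' {ι : Type} [Fintype ι] [DecidableEq ι] (e : α ⊕ α ≃ ι) (B : Matrix ι ι C)
    (hB : B.transpose = B) (hd : B.det ≠ 0)
    (W : Submodule C (ι → C)) (hW : ∀ x, x ∈ W ↔ ∀ y ∈ W, x ⬝ᵥ B.mulVec y = 0) :
    ∃ t : C, t ≠ 0 ∧ t ^ 2 * B.det = (-1) ^ Fintype.card α ∧
      ∀ (g : Matrix ι ι C) (τ : C →+* C) (μ : C),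
        g.transpose * B * g = μ • B → B.map τ = B →
        (∀ x ∈ W, g.mulVec (fun i => τ (x i)) ∈ W) →
        μ ^ Fintype.card α * t = g.det * τ t := by
  have hmem : ∀ x : α ⊕ α → C, x ∈ W.comap (LinearMap.funLeft C C e.symm) ↔ x ∘ e.symm ∈ W :=
    fun x => Iff.rfl
  have hback : ∀ x : ι → C, (x ∘ e) ∘ e.symm = x := by
    intro x
    funext i
    simp
  have hdot : ∀ x y : α ⊕ α → C, x ⬝ᵥ (B.submatrix e e).mulVec y =
      (x ∘ e.symm) ⬝ᵥ B.mulVec (y ∘ e.symm) := by
    intro x y
    rw [submatrix_mulVec_equiv]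
    simp only [dotProduct]
    exact (Equiv.sum_comp e (fun i => (x ∘ e.symm) i * (B.mulVec (y ∘ e.symm)) i)).symm ▸
      Finset.sum_congr rfl (fun i _ => by simp)
  obtain ⟨t, h1, h2, h3⟩ := lagr (B.submatrix e e) (by rw [transpose_submatrix, hB])
    (by rw [det_submatrix_equiv_self]; exact hd) (W.comap (LinearMap.funLeft C C e.symm)) (by
      intro x
      rw [hmem, hW]
      constructor
      · intro h y hy
        rw [hdot]
        exact h _ ((hmem y).1 hy)
      · intro h y hy
        have h4 := h (y ∘ e) ((hmem _).2 (by rw [hback]; exact hy))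
        rw [hdot, hback] at h4
        exact h4)
  rw [det_submatrix_equiv_self] at h2
  refine ⟨t, h1, h2, ?_⟩
  intro g τ μ hg hτ hst
  have h5 := h3 (g.submatrix e e) τ μ (by
      rw [transpose_submatrix, submatrix_mul_equiv, submatrix_mul_equiv, hg]
      rfl) (by
      ext i j
      exact congrFun (congrFun hτ (e i)) (e j)) (by
      intro x hx
      rw [hmem] at hx ⊢
      rw [submatrix_mulVec_equiv]
      have h6 := hst _ hx
      have h7 : ((g.mulVec ((fun i => τ (x i)) ∘ e.symm)) ∘ e) ∘ e.symm =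
          g.mulVec (fun i => τ ((x ∘ e.symm) i)) := by
        rw [hback]
        rfl
      rw [h7]
      exact h6)
  rw [det_submatrix_equiv_self] at h5
  exact h5

end PQ66
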