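import Pool.Agent.Helper66.PQ.CioTop

/-!
# The representation induced from a conjugate orthogonal representation is orthogonal
-/

set_option autoImplicit false

open NumberField
open scoped Classical Matrix Topology

namespace PQ
namespace Cio

open BKA CP18

section

set_option linter.unusedSectionVars false

variable {F F₀ : Type} [Field F] [NumberField F] [Field F₀] [NumberField F₀] [Algebra F₀ F]

/-- The power of the cyclotomic character. -/
noncomputable def kap (ℓ : ℕ) [Fact ℓ.Prime] (K : Type) [Field K] [Algebra ℚ_[ℓ] K] (m : ℤ) :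
    (AlgebraicClosure F ≃ₐ[F₀] AlgebraicClosure F) →* K where
  toFun h := algebraMap ℚ_[ℓ] K (((cycA F ℓ h.toRingEquiv) ^ (-(2 * m)) : ℚ_[ℓ]ˣ) : ℚ_[ℓ])
  map_one' := by
    have h1 : (1 : AlgebraicClosure F ≃ₐ[F₀] AlgebraicClosure F).toRingEquiv = 1 := rfl
    rw [h1, map_one, one_zpow, Units.val_one, map_one]
  map_mul' a b := by
    have h1 : (a * b).toRingEquiv = a.toRingEquiv * b.toRingEquiv := rfl
    rw [h1, map_mul, mul_zpow, Units.val_mul, map_mul]

lemma kap_apply (ℓ : ℕ) [Fact ℓ.Prime] (K : Type) [Field K] [Algebra ℚ_[ℓ] K] (m : ℤ)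
    (h : AlgebraicClosure F ≃ₐ[F₀] AlgebraicClosure F) :
    kap ℓ K m h =
      algebraMap ℚ_[ℓ] K (((cycA F ℓ h.toRingEquiv) ^ (-(2 * m)) : ℚ_[ℓ]ˣ) : ℚ_[ℓ]) := rfl

/-- The matrices of a representation. -/
noncomputable def mat {n : ℕ} {K : Type} [Field K]
    (ρ : Gal F →* Matrix.GeneralLinearGroup (Fin n) K) : Gal F →* Matrix (Fin n) (Fin n) K :=
  (Units.coeHom _).comp ρ

variable {c : F ≃ₐ[ℚ] F} {s : AlgebraicClosure F ≃ₐ[F₀] AlgebraicClosure F}
  (hs : ∀ x : F, s (algebraMap F (AlgebraicClosure F) x) =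
    algebraMap F (AlgebraicClosure F) (c x))
  (hc : ∀ x, c (c x) = x)
  {n : ℕ} {m : ℤ} {ℓ : ℕ} [Fact ℓ.Prime] {K : Type} [Field K] [Algebra ℚ_[ℓ] K]
  [TopologicalSpace K] (R : ConjOrthK F c n m ℓ K)

include hs hc in
/-- The pairing for `s⁻¹`. -/
lemma exists_pairing : ∃ β : Matrix (Fin n) (Fin n) K, β.det ≠ 0 ∧
    (∀ x y : Gal F, res F F₀ y = s⁻¹ * res F F₀ x * s →
      (mat R.ρ x)ᵀ * β * mat R.ρ y = kap ℓ K m (res F F₀ x) • β) ∧
    (∀ y : Gal F, res F F₀ y = s * s → βᵀ * mat R.ρ y = kap (F₀ := F₀) ℓ K m s • β) := by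
  have hlift : Lifts c s.symm.toRingEquiv := by
    intro x
    change s.symm (algebraMap F (AlgebraicClosure F) x) = _
    rw [AlgEquiv.symm_apply_eq, hs, hc]
  obtain ⟨β, hβ, h1, h2⟩ := R.pair s.symm.toRingEquiv hlift
  refine ⟨β, hβ, ?_, ?_⟩
  · intro x y hxy
    refine h1 x y ?_
    intro z
    change y (s.symm z) = s.symm (x z)
    have h3 := congrArg (fun h : AlgebraicClosure F ≃ₐ[F₀] AlgebraicClosure F => h (s.symm z)) hxy
    change y (s.symm z) = s.symm (x (s (s.symm z))) at h3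
    rw [h3, AlgEquiv.apply_symm_apply]
  · intro y hy
    have h3 := h2 y⁻¹ (by
      intro z
      change y.symm z = s.symm (s.symm z)
      have h4 := congrArg (fun h : AlgebraicClosure F ≃ₐ[F₀] AlgebraicClosure F =>
        h (s.symm (s.symm z))) hy
      change y (s.symm (s.symm z)) = s (s (s.symm (s.symm z))) at h4
      rw [AlgEquiv.apply_symm_apply, AlgEquiv.apply_symm_apply] at h4
      rw [AlgEquiv.symm_apply_eq, h4])
    rw [h3, Matrix.smul_mul, Matrix.mul_assoc]
    have h5 : ((R.ρ y⁻¹ : Matrix.GeneralLinearGroup (Fin n) K) : Matrix (Fin n) (Fin n) K) *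
        mat R.ρ y = 1 := by
      change ((R.ρ y⁻¹ : Matrix.GeneralLinearGroup (Fin n) K) : Matrix (Fin n) (Fin n) K) *
        ((R.ρ y : Matrix.GeneralLinearGroup (Fin n) K) : Matrix (Fin n) (Fin n) K) = 1
      rw [map_inv]
      exact Units.inv_mul _
    rw [h5, Matrix.mul_one, kap_apply]
    congr 3
    have h6 : s.symm.toRingEquiv = (s.toRingEquiv)⁻¹ := rfl
    rw [h6, map_inv, inv_zpow, zpow_neg]

end

end Cio

open Cio BKA CP18

/-- The construction. -/
theorem cio_core {F F₀ : Type} [Field F] [NumberField F] [Field F₀] [NumberField F₀]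
    [Algebra F₀ F] (c : F ≃ₐ[ℚ] F) (hc : ∀ x, c (c x) = x) (y : F) (δ : F₀) (hy0 : y ≠ 0)
    (hyδ : y ^ 2 = algebraMap F₀ F δ) (hcy : c y = -y)
    (hfix : ∀ x : F₀, c (algebraMap F₀ F x) = algebraMap F₀ F x)
    (hgen : ∀ x : F, ∃ a b : F₀, x = algebraMap F₀ F a + algebraMap F₀ F b * y)
    (n : ℕ) (m : ℤ) (ℓ : ℕ) [Fact ℓ.Prime] (K : Type) [Field K] [Algebra ℚ_[ℓ] K]
    [TopologicalSpace K] [IsTopologicalRing K] (R : ConjOrthK F c n m ℓ K) :
    ∃ R₀ : Orth F₀ (2 * n) m (δ ^ n) ℓ K, IndOf R.ρ R₀.ρ := by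
  -- the automorphism `s` and the isomorphism `θ`
  have halg : Algebra.IsAlgebraic F₀ (AlgebraicClosure F) :=
    Algebra.IsAlgebraic.trans F₀ F (AlgebraicClosure F)
  have hcl : IsAlgClosure F₀ (AlgebraicClosure F) := ⟨inferInstance, halg⟩
  have hnorm : Normal F₀ (AlgebraicClosure F) := IsAlgClosure.normal F₀ (AlgebraicClosure F)
  let c' : F ≃ₐ[F₀] F := AlgEquiv.ofRingEquiv (f := c.toRingEquiv) hfix
  let s : AlgebraicClosure F ≃ₐ[F₀] AlgebraicClosure F := c'.liftNormal (AlgebraicClosure F)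
  have hs : ∀ x : F, s (algebraMap F (AlgebraicClosure F) x) =
      algebraMap F (AlgebraicClosure F) (c x) := fun x =>
    AlgEquiv.liftNormal_commutes c' (AlgebraicClosure F) x
  let θ : AlgebraicClosure F ≃ₐ[F₀] AlgebraicClosure F₀ :=
    IsAlgClosure.equiv F₀ (AlgebraicClosure F) (AlgebraicClosure F₀)
  have T : Two (res F F₀) s := two_res hy0 hyδ hcy hgen s hs
  obtain ⟨β, hβ, h1, h2⟩ := exists_pairing (F₀ := F₀) hs hc R
  let e : Fin n ⊕ Fin n ≃ Fin (2 * n) := finSumFinEquiv.trans (finCongr (two_mul n).symm)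
  let A : Gal F₀ ≃* (AlgebraicClosure F ≃ₐ[F₀] AlgebraicClosure F) := AlgEquiv.autCongr θ.symm
  have hA : ∀ (g : Gal F₀) z, A g z = θ.symm (g (θ z)) := fun g z => rfl
  let f : Gal F₀ →* Matrix (Fin (2 * n)) (Fin (2 * n)) K :=
    ((Matrix.reindexRingEquiv K e : _ →* Matrix (Fin (2 * n)) (Fin (2 * n)) K).comp
      (ind (mat R.ρ) T)).comp A.toMonoidHom
  have hf : ∀ g, f g = Matrix.reindex e e (ind (mat R.ρ) T (A g)) := fun g => rfl
  have hfc : Continuous f := by
    have h3 : Continuous (mat R.ρ) := Units.continuous_val.comp R.cont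
    exact (ind_continuous hgen θ T (mat R.ρ) h3).matrix_reindex e e
  have hcyc : ∀ g : Gal F₀, cyc F₀ ℓ g = cycA F ℓ (A g).toRingEquiv := by
    intro g
    have h3 := cyclo_conj ℓ θ.toRingEquiv (A g).toRingEquiv g.toRingEquiv (by
      intro z
      change g (θ z) = θ (A g z)
      rw [hA, AlgEquiv.apply_symm_apply])
    change Units.map _ (cyclotomicCharacter (AlgebraicClosure F₀) ℓ g.toRingEquiv) =
      Units.map _ (cyclotomicCharacter (AlgebraicClosure F) ℓ (A g).toRingEquiv)
    rw [h3]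
  have hκ : ∀ g : Gal F₀, kap ℓ K m (A g) =
      algebraMap ℚ_[ℓ] K (((cyc F₀ ℓ g) ^ (-(2 * m)) : ℚ_[ℓ]ˣ) : ℚ_[ℓ]) := by
    intro g
    rw [kap_apply, hcyc]
  have hκn : ∀ g : Gal F₀, kap ℓ K m (A g) ^ n =
      algebraMap ℚ_[ℓ] K (((cyc F₀ ℓ g) ^ (-((2 * n : ℕ) * m)) : ℚ_[ℓ]ˣ) : ℚ_[ℓ]) := by
    intro g
    rw [hκ, ← map_pow, ← Units.val_pow_eq_pow_val, ← zpow_natCast, ← zpow_mul]
    congr 3
    push_cast
    ring
  let R₀ : Orth F₀ (2 * n) m (δ ^ n) ℓ K :=
    { ρ := f.toHomUnits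
      cont := by
        rw [Units.continuous_iff]
        refine ⟨hfc, ?_⟩
        exact hfc.comp continuous_inv
      B := Matrix.reindex e e (frm β)
      symm := by
        rw [Matrix.transpose_reindex, frm_symm]
      nondeg := by
        rw [Matrix.det_reindex_self]
        exact frm_det hβ
      inv := by
        intro σ
        have h3 := frm_inv T (kap ℓ K m) β h1 h2 (A σ)
        rw [hκ] at h3
        change (Matrix.reindex e e (ind (mat R.ρ) T (A σ)))ᵀ * Matrix.reindex e e (frm β) *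
          Matrix.reindex e e (ind (mat R.ρ) T (A σ)) = _
        rw [Matrix.transpose_reindex]
        have h4 : ∀ M N : Matrix (Fin n ⊕ Fin n) (Fin n ⊕ Fin n) K,
            Matrix.reindex e e M * Matrix.reindex e e N = Matrix.reindex e e (M * N) :=
          fun M N => (map_mul (Matrix.reindexRingEquiv K e) M N).symm
        rw [h4, h4, h3]
        rfl
      det := by
        intro σ z hz
        have h3 := ind_det T (kap ℓ K m) β hβ h1 h2 (A σ)
        have hdet : ((f.toHomUnits σ : Matrix.GeneralLinearGroup (Fin (2 * n)) K) :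
            Matrix (Fin (2 * n)) (Fin (2 * n)) K).det = (ind (mat R.ρ) T (A σ)).det := by
          change (Matrix.reindex e e (ind (mat R.ρ) T (A σ))).det = _
          rw [Matrix.det_reindex_self]
        rw [hdet, ← hκn]
        set y₁ : AlgebraicClosure F₀ := θ (algebraMap F (AlgebraicClosure F) y) with hy₁
        have hy₁2 : y₁ ^ 2 = algebraMap F₀ (AlgebraicClosure F₀) δ := by
          rw [hy₁, ← map_pow, ← map_pow, hyδ,
            ← IsScalarTower.algebraMap_apply F₀ F (AlgebraicClosure F)]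
          exact θ.commutes δ
        have hz2 : z ^ 2 = (y₁ ^ n) ^ 2 := by
          rw [hz, map_pow, ← hy₁2]
          ring
        have hσy : (∃ x, res F F₀ x = A σ) ↔ σ y₁ = y₁ := by
          rw [range_iff hgen, hA]
          rw [AlgEquiv.symm_apply_eq]
        have hσ2 : σ y₁ = y₁ ∨ σ y₁ = -y₁ := by
          rw [← sq_eq_sq_iff_eq_or_eq_neg, ← map_pow, hy₁2]
          exact σ.commutes δ
        have hzz := sq_eq_sq_iff_eq_or_eq_neg.1 hz2
        by_cases hin : ∃ x, res F F₀ x = A σ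
        · left
          refine ⟨?_, h3.1 hin⟩
          have h5 := hσy.1 hin
          rcases hzz with h6 | h6 <;> rw [h6] <;> simp [h5]
        · have h5 : σ y₁ = -y₁ := hσ2.resolve_left fun h => hin (hσy.2 h)
          have h6 := h3.2 hin
          rcases Nat.even_or_odd n with hn | hn
          · left
            refine ⟨?_, by rw [h6, hn.neg_one_pow, one_mul]⟩
            rcases hzz with h7 | h7 <;> rw [h7] <;> simp [h5, hn.neg_pow]
          · right
            refine ⟨?_, by rw [h6, hn.neg_one_pow]; ring⟩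
            rcases hzz with h7 | h7 <;> rw [h7] <;> simp [h5, hn.neg_pow] }
  refine ⟨R₀, θ.toRingEquiv, s.toRingEquiv, e, ?_, ?_, ?_, ?_, ?_⟩
  · intro x
    change θ (algebraMap F (AlgebraicClosure F) (algebraMap F₀ F x)) = _
    rw [← IsScalarTower.algebraMap_apply F₀ F (AlgebraicClosure F)]
    exact θ.commutes x
  · intro x
    change s (algebraMap F (AlgebraicClosure F) (algebraMap F₀ F x)) = _
    rw [hs, hfix]
  · refine ⟨y, ?_⟩
    change s (algebraMap F (AlgebraicClosure F) y) ≠ _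
    rw [hs, hcy, map_neg]
    intro h
    have h3 := self_eq_neg.1 h.symm
    rw [map_eq_zero] at h3
    exact hy0 h3
  · intro g σ τ hg hσ
    have h3 : res F F₀ σ = A g := by
      refine res_eq fun z => ?_
      rw [hA]
      have := hg z
      change g (θ z) = θ (σ z) at this
      rw [this, AlgEquiv.symm_apply_apply]
    have h4 : res F F₀ τ = s⁻¹ * A g * s := by
      rw [← h3]
      refine res_eq fun z => ?_
      change τ z = s.symm (σ (s z))
      have := hσ z
      change σ (s z) = s (τ z) at this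
      rw [this, AlgEquiv.symm_apply_apply]
    change Matrix.reindex e e (ind (mat R.ρ) T (A g)) = _
    rw [ind_of T h3 h4]
    rfl
  · intro g τ hg hτ
    have h3 : A g = s := by
      ext z
      rw [hA]
      have := hg z
      change g (θ z) = θ (s z) at this
      rw [this, AlgEquiv.symm_apply_apply]
    have h4 : res F F₀ τ = s * s := res_eq fun z => hτ z
    change Matrix.reindex e e (ind (mat R.ρ) T (A g)) = _
    rw [h3, ind_s T h4]
    rfl

theorem st_CIO : ST_CIO := by
  intro F _ _ c hc hc1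
  let E : IntermediateField ℚ F := IntermediateField.fixedField (Subgroup.zpowers c)
  have hmem : ∀ x : F, x ∈ E ↔ c x = x := by
    intro x
    rw [IntermediateField.mem_fixedField_iff]
    constructor
    · exact fun h => h c (Subgroup.mem_zpowers c)
    · intro h f hf
      have h1 : Subgroup.zpowers c ≤ MulAction.stabilizer (F ≃ₐ[ℚ] F) x := by
        rw [Subgroup.zpowers_le]
        exact h
      exact h1 hf
  have hc2 : c ^ 2 = 1 := by
    ext x
    rw [pow_two]
    exact hc x
  have hc3 : c ≠ 1 := by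
    rintro rfl
    obtain ⟨x, hx⟩ := hc1
    exact hx rfl
  have hrank : Module.finrank E F = 2 := by
    rw [IntermediateField.finrank_fixedField_eq_card, Nat.card_zpowers]
    exact orderOf_eq_prime hc2 hc3
  obtain ⟨x₀, hx₀⟩ := hc1
  set y : F := x₀ - c x₀ with hy
  have hy0 : y ≠ 0 := by
    intro h
    exact hx₀ (sub_eq_zero.1 h).symm
  have hcy : c y = -y := by
    rw [hy, map_sub, hc]
    ring
  have hfix : ∀ x : E, c (algebraMap E F x) = algebraMap E F x := fun x => (hmem _).1 x.2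
  let δ : E := ⟨y ^ 2, (hmem _).2 (by rw [map_pow, hcy]; ring)⟩
  have hyδ : y ^ 2 = algebraMap E F δ := rfl
  have hδ : δ ≠ 0 := by
    intro h
    have h1 : y ^ 2 = 0 := by rw [hyδ, h, map_zero]
    exact hy0 (pow_eq_zero_iff two_ne_zero |>.1 h1)
  have hgen : ∀ x : F, ∃ a b : E, x = algebraMap E F a + algebraMap E F b * y := by
    intro x
    refine ⟨⟨(x + c x) / 2, (hmem _).2 ?_⟩, ⟨(x - c x) / (2 * y), (hmem _).2 ?_⟩, ?_⟩
    · rw [map_div₀, map_add, hc, map_ofNat, add_comm]
    · rw [map_div₀, map_sub, hc, map_mul, map_ofNat, hcy]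
      field_simp
      ring
    · change x = (x + c x) / 2 + (x - c x) / (2 * y) * y
      field_simp
      ring
  have hNF : NumberField E := inferInstance
  refine ⟨E, inferInstance, hNF, inferInstance, δ, hrank, hδ, ⟨y, hyδ, hcy⟩, hfix, ?_⟩
  intro n m ℓ _ K _ _ _ _ _ R
  exact cio_core c hc y δ hy0 hyδ hcy hfix hgen n m ℓ K R

end PQ
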