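import Mathlib

/-!
# Induction of representations from a subgroup of index two
-/

set_option autoImplicit false

open scoped Classical Matrix

namespace PQ
namespace Cio

variable {G H : Type*} [Group G] [Group H] (ι : H →* G) {K : Type*} [Field K] {n : ℕ}
  (ρ : H →* Matrix (Fin n) (Fin n) K)

/-- The extension by zero of `ρ`. -/
noncomputable def ext (g : G) : Matrix (Fin n) (Fin n) K :=
  if h : ∃ x, ι x = g then ρ h.choose else 0

variable {ι}

lemma ext_map (hι : Function.Injective ι) (x : H) : ext ι ρ (ι x) = ρ x := by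
  have h : ∃ y, ι y = ι x := ⟨x, rfl⟩
  unfold ext
  rw [dif_pos h, hι h.choose_spec]

lemma ext_of_eq (hι : Function.Injective ι) {x : H} {g : G} (h : ι x = g) :
    ext ι ρ g = ρ x := by
  rw [← h, ext_map ρ hι]

lemma ext_of_not {g : G} (h : ¬ ∃ x, ι x = g) : ext ι ρ g = 0 := dif_neg h

lemma ext_one (hι : Function.Injective ι) : ext ι ρ 1 = 1 := by
  rw [ext_of_eq ρ hι (map_one ι), map_one]

lemma ext_mul (hι : Function.Injective ι) (a b : G)
    (h : (∃ x, ι x = a) ∨ (∃ x, ι x = b)) :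
    ext ι ρ (a * b) = ext ι ρ a * ext ι ρ b := by
  by_cases ha : ∃ x, ι x = a
  · obtain ⟨x, hx⟩ := ha
    by_cases hb : ∃ x, ι x = b
    · obtain ⟨y, hy⟩ := hb
      rw [ext_of_eq ρ hι hx, ext_of_eq ρ hι hy, ← map_mul]
      exact ext_of_eq ρ hι (by rw [map_mul, hx, hy])
    · rw [ext_of_not ρ hb, mul_zero]
      refine ext_of_not ρ ?_
      rintro ⟨z, hz⟩
      exact hb ⟨x⁻¹ * z, by rw [map_mul, map_inv, hx, hz]; group⟩
  · obtain ⟨y, hy⟩ := h.resolve_left ha
    rw [ext_of_not ρ ha, zero_mul]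
    refine ext_of_not ρ ?_
    rintro ⟨z, hz⟩
    exact ha ⟨z * y⁻¹, by rw [map_mul, map_inv, hy, hz]; group⟩

/-- `s` is not in the image of `ι`, which is of index two. -/
structure Two (ι : H →* G) (s : G) : Prop where
  inj : Function.Injective ι
  out : ¬ ∃ x, ι x = s
  cov : ∀ g, (¬ ∃ x, ι x = g) → ∃ x, ι x = s⁻¹ * g

variable {ρ} {s : G} (T : Two ι s)

include T

lemma Two.not_of {b : G} (h : ∃ x, ι x = b) : ¬ ∃ x, ι x = s⁻¹ * b := by
  rintro ⟨y, hy⟩
  obtain ⟨x, hx⟩ := h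
  exact T.out ⟨x * y⁻¹, by rw [map_mul, map_inv, hx, hy]; group⟩

lemma Two.sq : ∃ x, ι x = s * s := by
  by_contra h
  obtain ⟨x, hx⟩ := T.cov _ h
  exact T.out ⟨x, by rw [hx]; group⟩

lemma Two.conj (x : H) : ∃ y, ι y = s⁻¹ * ι x * s := by
  have h : ¬ ∃ z, ι z = ι x * s := by
    rintro ⟨z, hz⟩
    exact T.out ⟨x⁻¹ * z, by rw [map_mul, map_inv, hz]; group⟩
  obtain ⟨y, hy⟩ := T.cov _ h
  exact ⟨y, by rw [hy]; group⟩

lemma Two.key (a b : G) :
    ext ι ρ a * ext ι ρ b + ext ι ρ (a * s) * ext ι ρ (s⁻¹ * b) = ext ι ρ (a * b) := by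
  by_cases hb : ∃ x, ι x = b
  · rw [ext_of_not ρ (T.not_of hb), mul_zero, add_zero, ext_mul ρ T.inj a b (Or.inr hb)]
  · rw [ext_of_not ρ hb, mul_zero, zero_add, ← ext_mul ρ T.inj _ _ (Or.inr (T.cov b hb))]
    congr 1
    group

variable (ρ)

/-- The induced representation. -/
noncomputable def ind : G →* Matrix (Fin n ⊕ Fin n) (Fin n ⊕ Fin n) K where
  toFun g := Matrix.fromBlocks (ext ι ρ g) (ext ι ρ (g * s)) (ext ι ρ (s⁻¹ * g))
    (ext ι ρ (s⁻¹ * g * s))
  map_one' := by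
    have h1 : ¬ ∃ x, ι x = s⁻¹ * 1 := T.not_of ⟨1, map_one ι⟩
    have h2 : ¬ ∃ x, ι x = 1 * s := by
      rw [one_mul]
      exact T.out
    have h3 : s⁻¹ * 1 * s = 1 := by group
    rw [ext_of_not ρ h1, ext_of_not ρ h2, h3, ext_one ρ T.inj, Matrix.fromBlocks_one]
  map_mul' a b := by
    rw [Matrix.fromBlocks_multiply]
    have h1 := T.key (ρ := ρ) a b
    have h2 := T.key (ρ := ρ) a (b * s)
    have h3 := T.key (ρ := ρ) (s⁻¹ * a) b
    have h4 := T.key (ρ := ρ) (s⁻¹ * a) (b * s)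
    rw [h1]
    have e2 : s⁻¹ * (b * s) = s⁻¹ * b * s := by group
    rw [e2] at h2 h4
    rw [h2, h3, h4]
    have f2 : a * (b * s) = a * b * s := by group
    have f3 : s⁻¹ * a * b = s⁻¹ * (a * b) := by group
    have f4 : s⁻¹ * a * (b * s) = s⁻¹ * (a * b) * s := by group
    rw [f2, f3, f4]

variable {ρ}

lemma ind_of {g : G} {x y : H} (hx : ι x = g) (hy : ι y = s⁻¹ * g * s) :
    ind ρ T g = Matrix.fromBlocks (ρ x) 0 0 (ρ y) := by
  change Matrix.fromBlocks _ _ _ _ = _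
  have h1 : ¬ ∃ z, ι z = s⁻¹ * g := T.not_of ⟨x, hx⟩
  have h2 : ¬ ∃ z, ι z = g * s := by
    rintro ⟨z, hz⟩
    exact T.out ⟨x⁻¹ * z, by rw [map_mul, map_inv, hz, hx]; group⟩
  rw [ext_of_not ρ h1, ext_of_not ρ h2, ext_of_eq ρ T.inj hx, ext_of_eq ρ T.inj hy]

lemma ind_s {y : H} (hy : ι y = s * s) :
    ind ρ T s = Matrix.fromBlocks 0 (ρ y) 1 0 := by
  change Matrix.fromBlocks _ _ _ _ = _
  have h1 : ι 1 = s⁻¹ * s := by rw [map_one]; group
  have h2 : s⁻¹ * s * s = s := by group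
  rw [h2, ext_of_not ρ T.out, ext_of_eq ρ T.inj hy, ext_of_eq ρ T.inj h1, map_one]

/-- The bilinear form. -/
def frm (β : Matrix (Fin n) (Fin n) K) : Matrix (Fin n ⊕ Fin n) (Fin n ⊕ Fin n) K :=
  Matrix.fromBlocks 0 β βᵀ 0

omit T in
lemma frm_symm (β : Matrix (Fin n) (Fin n) K) : (frm β)ᵀ = frm β := by
  unfold frm
  rw [Matrix.fromBlocks_transpose]
  simp

omit T in
lemma det_anti (B C : Matrix (Fin n) (Fin n) K) :
    (Matrix.fromBlocks 0 B C 0).det = (-1) ^ n * (B.det * C.det) := by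
  have h1 : Matrix.fromBlocks (0 : Matrix (Fin n) (Fin n) K) B C 0 =
      Matrix.fromBlocks 0 B (1 : Matrix (Fin n) (Fin n) K) 0 *
        Matrix.fromBlocks C 0 0 (1 : Matrix (Fin n) (Fin n) K) := by
    rw [Matrix.fromBlocks_multiply]
    simp
  have h2 : (Matrix.fromBlocks (1 : Matrix (Fin n) (Fin n) K) (1 : Matrix (Fin n) (Fin n) K) 0
      (1 : Matrix (Fin n) (Fin n) K)) *
      Matrix.fromBlocks 0 B (1 : Matrix (Fin n) (Fin n) K) 0 =
      Matrix.fromBlocks 1 B (1 : Matrix (Fin n) (Fin n) K) 0 := by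
    rw [Matrix.fromBlocks_multiply]
    simp
  have h3 := congrArg Matrix.det h2
  rw [Matrix.det_mul, Matrix.det_fromBlocks_zero₂₁, Matrix.det_fromBlocks_one₁₁, Matrix.det_one,
    one_mul, one_mul, one_mul, zero_sub, Matrix.det_neg, Fintype.card_fin] at h3
  rw [h1, Matrix.det_mul, h3, Matrix.det_fromBlocks_zero₂₁, Matrix.det_one]
  ring

omit T in
lemma frm_det {β : Matrix (Fin n) (Fin n) K} (h : β.det ≠ 0) : (frm β).det ≠ 0 := by
  unfold frm
  rw [det_anti, Matrix.det_transpose]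
  exact mul_ne_zero (pow_ne_zero _ (neg_ne_zero.2 one_ne_zero)) (mul_ne_zero h h)

/-- The induced form is invariant. -/
theorem frm_inv (κ : G →* K) (β : Matrix (Fin n) (Fin n) K)
    (h1 : ∀ x y : H, ι y = s⁻¹ * ι x * s → (ρ x)ᵀ * β * ρ y = κ (ι x) • β)
    (h2 : ∀ y : H, ι y = s * s → βᵀ * ρ y = κ s • β) (g : G) :
    (ind ρ T g)ᵀ * frm β * ind ρ T g = κ g • frm β := by
  have hmul : ∀ a b : G, (ind ρ T a)ᵀ * frm β * ind ρ T a = κ a • frm β →
      (ind ρ T b)ᵀ * frm β * ind ρ T b = κ b • frm β →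
      (ind ρ T (a * b))ᵀ * frm β * ind ρ T (a * b) = κ (a * b) • frm β := by
    intro a b ha hb
    rw [map_mul, map_mul, Matrix.transpose_mul]
    have e1 : (ind ρ T b)ᵀ * (ind ρ T a)ᵀ * frm β * (ind ρ T a * ind ρ T b) =
        (ind ρ T b)ᵀ * ((ind ρ T a)ᵀ * frm β * ind ρ T a) * ind ρ T b := by
      simp only [Matrix.mul_assoc]
    rw [e1, ha, Matrix.mul_smul, Matrix.smul_mul, hb, smul_smul]
  have hin : ∀ x : H, (ind ρ T (ι x))ᵀ * frm β * ind ρ T (ι x) = κ (ι x) • frm β := by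
    intro x
    obtain ⟨y, hy⟩ := T.conj x
    rw [ind_of T rfl hy]
    unfold frm
    have e1 := h1 x y hy
    have e2 : (ρ y)ᵀ * βᵀ * ρ x = κ (ι x) • βᵀ := by
      have := congrArg Matrix.transpose e1
      rw [Matrix.transpose_mul, Matrix.transpose_mul, Matrix.transpose_transpose,
        Matrix.transpose_smul, ← Matrix.mul_assoc] at this
      exact this
    rw [Matrix.fromBlocks_transpose, Matrix.fromBlocks_multiply, Matrix.fromBlocks_multiply,
      Matrix.fromBlocks_smul]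
    simp [e1, e2]
  have hs : (ind ρ T s)ᵀ * frm β * ind ρ T s = κ s • frm β := by
    obtain ⟨y, hy⟩ := T.sq
    rw [ind_s T hy]
    unfold frm
    have e1 := h2 y hy
    have e2 : (ρ y)ᵀ * β = κ s • βᵀ := by
      have := congrArg Matrix.transpose e1
      rw [Matrix.transpose_mul, Matrix.transpose_transpose, Matrix.transpose_smul] at this
      exact this
    rw [Matrix.fromBlocks_transpose, Matrix.fromBlocks_multiply, Matrix.fromBlocks_multiply,
      Matrix.fromBlocks_smul]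
    simp [e1, e2]
  by_cases hg : ∃ x, ι x = g
  · obtain ⟨x, rfl⟩ := hg
    exact hin x
  · obtain ⟨x, hx⟩ := T.cov g hg
    have e : g = s * ι x := by rw [hx]; group
    rw [e]
    exact hmul _ _ hs (hin x)

/-- The determinant of the induced representation. -/
theorem ind_det (κ : G →* K) (β : Matrix (Fin n) (Fin n) K) (hβ : β.det ≠ 0)
    (h1 : ∀ x y : H, ι y = s⁻¹ * ι x * s → (ρ x)ᵀ * β * ρ y = κ (ι x) • β)
    (h2 : ∀ y : H, ι y = s * s → βᵀ * ρ y = κ s • β) (g : G) :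
    ((∃ x, ι x = g) → (ind ρ T g).det = κ g ^ n) ∧
    ((¬ ∃ x, ι x = g) → (ind ρ T g).det = (-1) ^ n * κ g ^ n) := by
  have hin : ∀ x : H, (ind ρ T (ι x)).det = κ (ι x) ^ n := by
    intro x
    obtain ⟨y, hy⟩ := T.conj x
    rw [ind_of T rfl hy, Matrix.det_fromBlocks_zero₂₁]
    have e1 := congrArg Matrix.det (h1 x y hy)
    rw [Matrix.det_mul, Matrix.det_mul, Matrix.det_transpose, Matrix.det_smul,
      Fintype.card_fin] at e1
    have e2 : β.det * ((ρ x).det * (ρ y).det) = β.det * κ (ι x) ^ n := by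
      linear_combination e1
    exact mul_left_cancel₀ hβ e2
  have hs : (ind ρ T s).det = (-1) ^ n * κ s ^ n := by
    obtain ⟨y, hy⟩ := T.sq
    rw [ind_s T hy, det_anti, Matrix.det_one, mul_one]
    have e1 := congrArg Matrix.det (h2 y hy)
    rw [Matrix.det_mul, Matrix.det_transpose, Matrix.det_smul, Fintype.card_fin] at e1
    have e2 : β.det * (ρ y).det = β.det * κ s ^ n := by
      linear_combination e1
    rw [mul_left_cancel₀ hβ e2]
  refine ⟨?_, ?_⟩
  · rintro ⟨x, rfl⟩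
    exact hin x
  · intro hg
    obtain ⟨x, hx⟩ := T.cov g hg
    have e : g = s * ι x := by rw [hx]; group
    rw [e, map_mul, Matrix.det_mul, hs, hin, map_mul, mul_pow]
    ring

end Cio
end PQ
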