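import Pool.Agent.Helper94.PQ.StmtsC
import Pool.Agent.Helper66.PQ.CioAbs

/-!
# The induced representation of a Galois representation: continuity
-/

set_option autoImplicit false

open NumberField
open scoped Classical Matrix Topology

namespace PQ
namespace Cio

open BKA CP18

/-- The cyclotomic characters of isomorphic fields. -/
lemma cyclo_conj {L L' : Type} [Field L] [Field L'] [CharZero L] [CharZero L'] [IsAlgClosed L]
    [IsAlgClosed L'] (ℓ : ℕ) [Fact ℓ.Prime] (θ : L ≃+* L') (h : L ≃+* L) (g : L' ≃+* L')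
    (hg : ∀ z, g (θ z) = θ (h z)) : cyclotomicCharacter L' ℓ g = cyclotomicCharacter L ℓ h := by
  have hl0 : ℓ ≠ 0 := (Fact.out : ℓ.Prime).ne_zero
  have hN : ∀ i : ℕ, NeZero ((ℓ ^ i : ℕ) : L) := fun i => ⟨by exact_mod_cast pow_ne_zero i hl0⟩
  have hN' : ∀ i : ℕ, NeZero ((ℓ ^ i : ℕ) : L') := fun i => ⟨by exact_mod_cast pow_ne_zero i hl0⟩
  have hE : ∀ i : ℕ, HasEnoughRootsOfUnity L (ℓ ^ i) := fun i => by
    have := hN i
    infer_instance
  have hE' : ∀ i : ℕ, HasEnoughRootsOfUnity L' (ℓ ^ i) := fun i => by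
    have := hN' i
    infer_instance
  apply Units.ext
  refine PadicInt.ext_of_toZModPow.mp fun n => ?_
  rw [cyclotomicCharacter.toZModPow ℓ g]
  symm
  apply modularCyclotomicCharacter.unique
  intro t ht
  have h1 : (θ.symm (t : L')) ^ ℓ ^ n = 1 := by
    rw [← map_pow]
    have h2 : (t : L') ^ ℓ ^ n = 1 := by
      have h5 := (mem_rootsOfUnity _ t).1 ht
      rw [← Units.val_pow_eq_pow_val, h5, Units.val_one]
    rw [h2, map_one]
  have h3 := cyclotomicCharacter.spec ℓ h (θ.symm (t : L')) h1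
  have h4 := hg (θ.symm (t : L'))
  rw [RingEquiv.apply_symm_apply] at h4
  rw [h4, h3, map_pow, RingEquiv.apply_symm_apply]

section

variable (F F₀ : Type) [Field F] [NumberField F] [Field F₀] [NumberField F₀] [Algebra F₀ F]

set_option linter.unusedSectionVars false

/-- Restriction of scalars. -/
noncomputable def res : Gal F →* (AlgebraicClosure F ≃ₐ[F₀] AlgebraicClosure F) :=
  AlgEquiv.restrictScalarsHom F₀

variable {F F₀}

lemma res_apply (σ : Gal F) (z : AlgebraicClosure F) : res F F₀ σ z = σ z := rfl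

lemma res_inj : Function.Injective (res F F₀) := AlgEquiv.restrictScalarsHom_injective F₀

lemma res_eq {σ : Gal F} {h : AlgebraicClosure F ≃ₐ[F₀] AlgebraicClosure F}
    (H : ∀ z, σ z = h z) : res F F₀ σ = h := AlgEquiv.ext H

/-- The image consists of the automorphisms that fix the generator. -/
lemma range_iff {y : F} (hgen : ∀ x : F, ∃ a b : F₀, x = algebraMap F₀ F a + algebraMap F₀ F b * y)
    (h : AlgebraicClosure F ≃ₐ[F₀] AlgebraicClosure F) :
    (∃ σ, res F F₀ σ = h) ↔
      h (algebraMap F (AlgebraicClosure F) y) = algebraMap F (AlgebraicClosure F) y := by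
  constructor
  · rintro ⟨σ, rfl⟩
    exact σ.commutes y
  · intro hy
    have hF : ∀ x : F, h (algebraMap F (AlgebraicClosure F) x) =
        algebraMap F (AlgebraicClosure F) x := by
      intro x
      obtain ⟨a, b, rfl⟩ := hgen x
      have h1 : ∀ a : F₀, h (algebraMap F (AlgebraicClosure F) (algebraMap F₀ F a)) =
          algebraMap F (AlgebraicClosure F) (algebraMap F₀ F a) := by
        intro a
        rw [← IsScalarTower.algebraMap_apply F₀ F (AlgebraicClosure F)]
        exact h.commutes a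
      rw [map_add, map_mul, map_add, map_mul, h1, h1, hy]
    exact ⟨AlgEquiv.ofRingEquiv (f := h.toRingEquiv) hF, AlgEquiv.ext fun z => rfl⟩

lemma two_res {c : F ≃ₐ[ℚ] F} {y : F} {δ : F₀} (hy0 : y ≠ 0) (hyδ : y ^ 2 = algebraMap F₀ F δ)
    (hcy : c y = -y)
    (hgen : ∀ x : F, ∃ a b : F₀, x = algebraMap F₀ F a + algebraMap F₀ F b * y)
    (s : AlgebraicClosure F ≃ₐ[F₀] AlgebraicClosure F)
    (hs : ∀ x : F, s (algebraMap F (AlgebraicClosure F) x) =
      algebraMap F (AlgebraicClosure F) (c x)) : Two (res F F₀) s := by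
  have hsy : s (algebraMap F (AlgebraicClosure F) y) = -algebraMap F (AlgebraicClosure F) y := by
    rw [hs, hcy, map_neg]
  have hy1 : algebraMap F (AlgebraicClosure F) y ≠ 0 := by
    rw [Ne, map_eq_zero]
    exact hy0
  refine ⟨res_inj, ?_, ?_⟩
  · rw [range_iff hgen, hsy]
    intro h
    exact hy1 (self_eq_neg.1 h.symm)
  · intro g hg
    rw [range_iff hgen] at hg ⊢
    have h1 : g (algebraMap F (AlgebraicClosure F) y) ^ 2 =
        (algebraMap F (AlgebraicClosure F) y) ^ 2 := by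
      rw [← map_pow, ← map_pow, hyδ, ← IsScalarTower.algebraMap_apply F₀ F (AlgebraicClosure F)]
      exact g.commutes δ
    have h2 : g (algebraMap F (AlgebraicClosure F) y) = -algebraMap F (AlgebraicClosure F) y :=
      (sq_eq_sq_iff_eq_or_eq_neg.1 h1).resolve_left hg
    rw [AlgEquiv.mul_apply, h2]
    have h3 : s.symm (-algebraMap F (AlgebraicClosure F) y) =
        algebraMap F (AlgebraicClosure F) y := by
      rw [← hsy, AlgEquiv.symm_apply_apply]
    exact h3

/-- Neighbourhoods of one in `Gal F₀`. -/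
lemma nhd_of_finite (S : Set (AlgebraicClosure F₀)) (hS : S.Finite) :
    {g : Gal F₀ | ∀ x ∈ S, g x = x} ∈ 𝓝 (1 : Gal F₀) := by
  rw [krullTopology_mem_nhds_one_iff]
  have := hS.to_subtype
  refine ⟨IntermediateField.adjoin F₀ S, ?_, ?_⟩
  · exact IntermediateField.finiteDimensional_adjoin fun x _ =>
      (Algebra.IsAlgebraic.isAlgebraic x).isIntegral
  · intro g hg x hx
    exact hg ⟨x, IntermediateField.subset_adjoin F₀ S hx⟩

/-- Neighbourhoods of one in `Gal F`. -/
lemma exists_finite {U : Set (Gal F)} (hU : U ∈ 𝓝 (1 : Gal F)) :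
    ∃ S : Set (AlgebraicClosure F), S.Finite ∧ ∀ σ : Gal F, (∀ x ∈ S, σ x = x) → σ ∈ U := by
  rw [krullTopology_mem_nhds_one_iff] at hU
  obtain ⟨E, hE, hEU⟩ := hU
  let b := Module.finBasis F E
  refine ⟨Set.range fun i => ((b i : E) : AlgebraicClosure F), Set.finite_range _, ?_⟩
  intro σ hσ
  apply hEU
  rintro ⟨x, hx⟩
  have h1 : (x : AlgebraicClosure F) = ∑ i, algebraMap F (AlgebraicClosure F) (b.repr ⟨x, hx⟩ i) *
      ((b i : E) : AlgebraicClosure F) := by
    have h2 := congrArg (fun z : E => (z : AlgebraicClosure F)) (b.sum_repr ⟨x, hx⟩)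
    simp only [AddSubmonoidClass.coe_finsetSum, IntermediateField.coe_smul] at h2
    refine h2.symm.trans (Finset.sum_congr rfl fun i _ => ?_)
    rw [Algebra.smul_def]
  change σ x = x
  rw [h1, map_sum]
  refine Finset.sum_congr rfl fun i _ => ?_
  rw [map_mul, σ.commutes, hσ _ ⟨i, rfl⟩]

/-- A left inverse of the restriction of scalars. -/
noncomputable def pr (h : AlgebraicClosure F ≃ₐ[F₀] AlgebraicClosure F) : Gal F :=
  if H : ∃ σ, res F F₀ σ = h then H.choose else 1

lemma pr_spec {h : AlgebraicClosure F ≃ₐ[F₀] AlgebraicClosure F} (H : ∃ σ, res F F₀ σ = h) :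
    res F F₀ (pr h) = h := by
  unfold pr
  rw [dif_pos H]
  exact H.choose_spec

lemma pr_tendsto {y : F}
    (hgen : ∀ x : F, ∃ a b : F₀, x = algebraMap F₀ F a + algebraMap F₀ F b * y)
    (θ : AlgebraicClosure F ≃ₐ[F₀] AlgebraicClosure F₀)
    (s : AlgebraicClosure F ≃ₐ[F₀] AlgebraicClosure F) :
    Filter.Tendsto (fun g : Gal F₀ => pr (F := F) (F₀ := F₀) (s⁻¹ * AlgEquiv.autCongr θ.symm g * s))
      (𝓝 1) (𝓝 1) := by
  intro U hU
  obtain ⟨S, hS, hSU⟩ := exists_finite hU
  have h1 := nhd_of_finite (F₀ := F₀)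
    ((fun x => θ (s x)) '' (insert (algebraMap F (AlgebraicClosure F) y) S))
    ((hS.insert _).image _)
  rw [Filter.mem_map]
  refine Filter.mem_of_superset h1 ?_
  intro g hg
  have h2 : ∀ x ∈ insert (algebraMap F (AlgebraicClosure F) y) S,
      (s⁻¹ * AlgEquiv.autCongr θ.symm g * s) x = x := by
    intro x hx
    have h3 := hg (θ (s x)) ⟨x, hx, rfl⟩
    change s.symm (θ.symm (g (θ (s x)))) = x
    rw [h3, AlgEquiv.symm_apply_apply, AlgEquiv.symm_apply_apply]
  have h3 : ∃ σ, res F F₀ σ = s⁻¹ * AlgEquiv.autCongr θ.symm g * s :=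
    (range_iff hgen _).2 (h2 _ (Set.mem_insert _ _))
  have h4 := pr_spec h3
  apply hSU
  intro x hx
  rw [← res_apply (F₀ := F₀), h4]
  exact h2 x (Set.mem_insert_of_mem _ hx)

variable {K : Type} [Field K] [TopologicalSpace K] [IsTopologicalRing K] {n : ℕ}

/-- Continuity of the induced representation. -/
theorem ind_continuous {y : F}
    (hgen : ∀ x : F, ∃ a b : F₀, x = algebraMap F₀ F a + algebraMap F₀ F b * y)
    (θ : AlgebraicClosure F ≃ₐ[F₀] AlgebraicClosure F₀)
    {s : AlgebraicClosure F ≃ₐ[F₀] AlgebraicClosure F} (T : Two (res F F₀) s)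
    (ρ : Gal F →* Matrix (Fin n) (Fin n) K) (hρ : Continuous ρ) :
    Continuous (fun g : Gal F₀ => ind ρ T (AlgEquiv.autCongr θ.symm g)) := by
  let f : Gal F₀ →* Matrix (Fin n ⊕ Fin n) (Fin n ⊕ Fin n) K :=
    (ind ρ T).comp (AlgEquiv.autCongr θ.symm).toMonoidHom
  change Continuous f
  apply continuous_of_continuousAt_one
  have h1 := pr_tendsto hgen θ (1 : AlgebraicClosure F ≃ₐ[F₀] AlgebraicClosure F)
  have h2 := pr_tendsto hgen θ s
  have h3 : Filter.Tendsto (fun g : Gal F₀ =>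
      Matrix.fromBlocks (ρ (pr (F := F) (F₀ := F₀) (1⁻¹ * AlgEquiv.autCongr θ.symm g * 1))) 0 0
        (ρ (pr (F := F) (F₀ := F₀) (s⁻¹ * AlgEquiv.autCongr θ.symm g * s)))) (𝓝 1) (𝓝 1) := by
    have hc : Continuous (fun p : Gal F × Gal F =>
        Matrix.fromBlocks (ρ p.1) 0 0 (ρ p.2)) :=
      (hρ.comp continuous_fst).matrix_fromBlocks continuous_const continuous_const
        (hρ.comp continuous_snd)
    have hc1 := hc.tendsto (1, 1)
    have e1 : Matrix.fromBlocks (ρ (1 : Gal F)) 0 0 (ρ (1 : Gal F)) = 1 := by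
      rw [map_one, Matrix.fromBlocks_one]
    rw [e1] at hc1
    rw [nhds_prod_eq] at hc1
    exact hc1.comp (h1.prodMk h2)
  have h4 : f 1 = 1 := map_one f
  rw [ContinuousAt, h4]
  refine h3.congr' ?_
  have h5 := nhd_of_finite (F₀ := F₀) {θ (algebraMap F (AlgebraicClosure F) y)}
    (Set.finite_singleton _)
  refine Filter.mem_of_superset h5 ?_
  intro g hg
  have h6 : AlgEquiv.autCongr θ.symm g (algebraMap F (AlgebraicClosure F) y) =
      algebraMap F (AlgebraicClosure F) y := by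
    change θ.symm (g (θ _)) = _
    rw [hg _ rfl, AlgEquiv.symm_apply_apply]
  have h7 : ∃ σ, res F F₀ σ = AlgEquiv.autCongr θ.symm g := (range_iff hgen _).2 h6
  have h8 : ∃ σ, res F F₀ σ = s⁻¹ * AlgEquiv.autCongr θ.symm g * s := by
    obtain ⟨x, hx⟩ := h7
    obtain ⟨z, hz⟩ := T.conj x
    exact ⟨z, by rw [hz, hx]⟩
  have e1 : (1 : AlgebraicClosure F ≃ₐ[F₀] AlgebraicClosure F)⁻¹ * AlgEquiv.autCongr θ.symm g * 1 =
      AlgEquiv.autCongr θ.symm g := by group
  change Matrix.fromBlocks _ _ _ _ = f g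
  rw [e1]
  exact (ind_of T (pr_spec h7) (pr_spec h8)).symm

end

end Cio
end PQ
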