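import Pool.Agent.Helper94.PQ.Stmts
import Pool.Agent.Helper66.PQ.Lagr

/-!
# Row HTV: the determinant at the places over `ℓ`
-/

set_option autoImplicit false

open NumberField
open scoped Classical

namespace PQ

open BKA

theorem htv (hI : ST_INERT) : ST_HTV := by
  intro F _ _ r m R ℓ _ c s hc hs h v hv
  obtain ⟨𝔓, hO, C, _, i, j, act, W, hW, hD⟩ := R.hodgeTate ℓ v hv
  -- square roots
  obtain ⟨y, hy⟩ := IsAlgClosed.exists_pow_nat_eq (algebraMap F (AlgebraicClosure F) R.δ)
    (n := 2) two_pos
  obtain ⟨z, hz⟩ := IsAlgClosed.exists_pow_nat_eq (algebraMap F (AlgebraicClosure F) (c : F))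
    (n := 2) two_pos
  have hz' : z ^ 2 = (c : AlgebraicClosure F) := by rw [hz, map_ratCast]
  have hcF : (c : F) ≠ 0 := by exact_mod_cast hc
  have hz0 : z ≠ 0 := by
    intro h0
    rw [h0] at hz
    have h1 : algebraMap F (AlgebraicClosure F) (c : F) = 0 := by rw [← hz]; ring
    exact hcF ((map_eq_zero _).1 h1)
  have hx0 : R.δ * (c : F) ≠ 0 := mul_ne_zero R.δ_ne hcF
  have key := hI F v 𝔓 hO (R.δ * (c : F)) (y * z) hx0 (by rw [mul_pow, hy, hz, map_mul]) ?_
  · -- the valuation
    have h1 : od v (R.δ * (c : F)) = od v R.δ + od v (c : F) := by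
      unfold od
      rw [map_mul, WithZero.log_mul]
      · ring
      · rw [Ne, map_eq_zero]
        exact R.δ_ne
      · rw [Ne, map_eq_zero]
        exact hcF
    rw [← h1]
    exact key
  · intro σ hσ
    -- the invariant of `W`
    have hdet : ((R.B ℓ).map i).det = i (R.B ℓ).det := (RingHom.map_det i _).symm
    let e : Fin r ⊕ Fin r ≃ Fin (2 * r) := finSumFinEquiv.trans (finCongr (two_mul r).symm)
    obtain ⟨t, ht0, ht, hg⟩ := PQ66.lagr' e ((R.B ℓ).map i)
      (by rw [← Matrix.transpose_map, R.symm ℓ])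
      (by
        rw [hdet, Ne, map_eq_zero]
        exact R.nondeg ℓ) W hW
    rw [Fintype.card_fin] at ht hg
    -- the element `σ`
    obtain ⟨h1, h2, h3⟩ := hD σ (by
      intro a b hab
      have h4 := hσ a b hab
      rw [pow_one] at h4
      constructor
      · intro ha
        have h5 : b = (b - a) + a := by ring
        rw [h5]
        exact Ideal.add_mem _ h4 ha
      · intro hb
        have h5 : a = b - (b - a) := by ring
        rw [h5]
        exact Ideal.sub_mem _ hb h4)
    set M : Matrix (Fin (2 * r)) (Fin (2 * r)) ℚ_[ℓ] :=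
      ((R.ρ ℓ σ : Matrix.GeneralLinearGroup (Fin (2 * r)) ℚ_[ℓ]) :
        Matrix (Fin (2 * r)) (Fin (2 * r)) ℚ_[ℓ]) with hM
    set u : ℚ_[ℓ]ˣ := cyc F ℓ σ with hu
    set μ : ℚ_[ℓ] := ((u ^ (-(2 * m)) : ℚ_[ℓ]ˣ) : ℚ_[ℓ]) with hμ
    have hμ0 : i μ ≠ 0 := by
      rw [Ne, map_eq_zero]
      exact Units.ne_zero _
    have h5 := hg (M.map i) (act σ) (i μ) (by
        have h6 : (M.transpose * R.B ℓ * M).map i = (μ • R.B ℓ).map i := by
          rw [R.inv ℓ σ]
        rw [Matrix.map_mul, Matrix.map_mul, Matrix.transpose_map] at h6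
        rw [h6]
        ext a b
        simp [Matrix.map_apply, Matrix.smul_apply]) (by
        ext a b
        exact h1 _) h3
    have h6 : (M.map i).det = i M.det := (RingHom.map_det i _).symm
    rw [h6] at h5
    have h7 : ((u ^ (-(((2 * r : ℕ) : ℤ) * m)) : ℚ_[ℓ]ˣ) : ℚ_[ℓ]) = μ ^ r := by
      rw [hμ, ← Units.val_pow_eq_pow_val, ← zpow_natCast, ← zpow_mul]
      congr 2
      push_cast
      ring
    -- `σ` on the square roots
    have h8 : t ^ 2 * (c : C) * i s ^ 2 = 1 := by
      have h9 := congrArg i h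
      rw [map_mul, map_mul, map_pow, map_pow, map_neg, map_one, map_ratCast] at h9
      rw [hdet] at ht
      calc t ^ 2 * (c : C) * i s ^ 2 = t ^ 2 * ((c : C) * i s ^ 2) := by ring
        _ = t ^ 2 * ((-1) ^ r * i (R.B ℓ).det) := by rw [h9]
        _ = (-1) ^ r * (t ^ 2 * i (R.B ℓ).det) := by ring
        _ = (-1) ^ r * (-1) ^ r := by rw [ht]
        _ = 1 := by rw [← mul_pow]; norm_num
    have h9 : (t * i s * j z) ^ 2 = 1 := by
      have h10 : j z ^ 2 = (c : C) := by rw [← map_pow, hz', map_ratCast]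
      calc (t * i s * j z) ^ 2 = t ^ 2 * j z ^ 2 * i s ^ 2 := by ring
        _ = 1 := by rw [h10, h8]
    have h10 : act σ (t * i s * j z) = t * i s * j z := by
      rw [sq] at h9
      rcases mul_self_eq_one_iff.1 h9 with h11 | h11
      · rw [h11, map_one]
      · rw [h11, map_neg, map_one]
    rw [map_mul, map_mul, h1, h2] at h10
    have his : i s ≠ 0 := by
      rw [Ne, map_eq_zero]
      exact hs
    rcases R.det ℓ σ y hy with ⟨h11, h12⟩ | ⟨h11, h12⟩
    · rw [← hM, ← hu, h7] at h12
      rw [h12, map_pow] at h5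
      have h13 : t = act σ t := mul_left_cancel₀ (pow_ne_zero r hμ0) h5
      rw [← h13] at h10
      have h14 : j (σ z) = j z := mul_left_cancel₀ (mul_ne_zero ht0 his) h10
      have h15 : σ z = z := j.injective h14
      rw [map_mul, h11, h15]
    · rw [← hM, ← hu, h7] at h12
      rw [h12, map_neg, map_pow] at h5
      have h13 : t = -act σ t := by
        refine mul_left_cancel₀ (pow_ne_zero r hμ0) ?_
        rw [h5]
        ring
      have h13' : act σ t = -t := by linear_combination h13
      rw [h13'] at h10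
      have h14 : j (σ z) = j (-z) := by
        refine mul_left_cancel₀ (mul_ne_zero ht0 his) ?_
        rw [map_neg]
        linear_combination -h10
      have h15 : σ z = -z := j.injective h14
      rw [map_mul, h11, h15]
      ring

end PQ
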