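import Pool.Agent.Helper94.PQ.StmtsT

/-!
# The arithmetic of the theorem of Sen
-/

set_option autoImplicit false

namespace PQ

/-- The partial sums. -/
def numD (I : ℕ → ℤ) (j : ℕ) : ℤ := ∑ i ∈ Finset.range j, 2 ^ (j - 1 - i) * I i

lemma numD_succ (I : ℕ → ℤ) (j : ℕ) : numD I (j + 1) = 2 * numD I j + I j := by
  unfold numD
  rw [Finset.sum_range_succ, Finset.mul_sum]
  have h1 : j + 1 - 1 - j = 0 := by omega
  rw [h1, pow_zero, one_mul]
  congr 1
  refine Finset.sum_congr rfl fun i hi => ?_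
  have hi' := Finset.mem_range.1 hi
  have h2 : j + 1 - 1 - i = (j - 1 - i) + 1 := by omega
  rw [h2, pow_succ]
  ring

/-- An odd natural number in the class of a given odd number. -/
lemma num_odd (y : ℤ) (hy : ¬ (2 : ℤ) ∣ y) (n : ℕ) (hn : 1 ≤ n) :
    ∃ l : ℕ, Odd l ∧ (2 : ℤ) ^ n ∣ l + y := by
  have hpos : (0 : ℤ) < 2 ^ n := by positivity
  obtain ⟨l, hl⟩ := Int.eq_ofNat_of_zero_le (Int.emod_nonneg (-y) hpos.ne')
  have h1 : (2 : ℤ) ^ n ∣ l + y := by
    have h2 := Int.emod_add_mul_ediv (-y) (2 ^ n)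
    refine ⟨-((-y) / 2 ^ n), ?_⟩
    rw [hl] at h2
    linear_combination h2
  refine ⟨l, ?_, h1⟩
  rw [← Nat.not_even_iff_odd]
  intro he
  apply hy
  have h3 : (2 : ℤ) ∣ 2 ^ n := dvd_pow_self 2 (by omega)
  have h4 : (2 : ℤ) ∣ (l : ℤ) := by
    obtain ⟨r, hr⟩ := he
    exact ⟨r, by rw [hr]; push_cast; ring⟩
  exact (dvd_add_right h4).1 (h3.trans h1)

/-- The covering argument. -/
lemma num_cover (I : ℕ → ℤ) (j n : ℕ) (hn : 1 ≤ n) (D : ℤ)
    (hI : ∀ i, i < j → (2 : ℤ) ^ (i + 1) ∣ I (i + 1) - I i)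
    (h : ∀ v l : ℕ, v ≤ j → Odd l → ¬ ((2 : ℤ) ^ n ∣ 2 ^ v * l + I v + D)) :
    ∀ v, v ≤ j → (2 : ℤ) ^ (v + 1) ∣ D + I v := by
  have key : ∀ v, v ≤ j → (2 : ℤ) ^ v ∣ D + I v → (2 : ℤ) ^ (v + 1) ∣ D + I v := by
    intro v hv hd
    by_contra hcon
    obtain ⟨y, hy⟩ := hd
    have hy2 : ¬ (2 : ℤ) ∣ y := by
      rintro ⟨z, hz⟩
      apply hcon
      exact ⟨z, by rw [hy, hz, pow_succ]; ring⟩
    obtain ⟨l, hl, hl2⟩ := num_odd y hy2 n hn
    apply h v l hv hl
    have h1 : (2 : ℤ) ^ v * l + I v + D = 2 ^ v * (l + y) := by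
      linear_combination hy
    rw [h1]
    exact Dvd.dvd.mul_left hl2 _
  intro v
  induction v with
  | zero => exact fun hv => key 0 hv (by rw [pow_zero]; exact one_dvd _)
  | succ v ih =>
    intro hv
    refine key (v + 1) hv ?_
    have h1 := ih (by omega)
    have h2 := hI v (by omega)
    have h3 := dvd_add h1 h2
    have h4 : D + I v + (I (v + 1) - I v) = D + I (v + 1) := by ring
    rwa [h4] at h3

theorem st_NUM : ST_NUM := by
  intro k I h
  have main : ∀ j, j + 1 ≤ k → ((2 : ℤ) ^ (j + 1) ∣ numD I (j + 1) + I j) ∧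
      ∀ i, i < j → (2 : ℤ) ^ (i + 1) ∣ I (i + 1) - I i := by
    intro j
    induction j with
    | zero =>
      intro _
      refine ⟨?_, fun i hi => absurd hi (Nat.not_lt_zero i)⟩
      rw [numD_succ]
      have h1 : numD I 0 = 0 := by simp [numD]
      rw [h1]
      exact ⟨I 0, by ring⟩
    | succ j ih =>
      intro hj
      obtain ⟨⟨a, ha⟩, hI⟩ := ih (by omega)
      have hc := num_cover I j (j + 2) (by omega) (numD I (j + 2)) hI (by
        intro v l hv hl
        exact h (j + 2) (by omega) hj v l (by omega) hl) j le_rfl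
      rw [numD_succ I (j + 1)] at hc
      have h2 : (2 : ℤ) ^ (j + 1) ∣ I (j + 1) - I j := by
        obtain ⟨b, hb⟩ := hc
        refine ⟨b - 2 * a, ?_⟩
        linear_combination hb - 2 * ha
      refine ⟨?_, ?_⟩
      · obtain ⟨b, hb⟩ := h2
        refine ⟨a + b, ?_⟩
        rw [numD_succ I (j + 1), pow_succ]
        linear_combination 2 * ha + 2 * hb
      · intro i hi
        rcases Nat.lt_succ_iff_lt_or_eq.1 hi with h3 | h3
        · exact hI i h3
        · rw [h3]; exact h2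
  intro j hj1 hjk
  obtain ⟨i, rfl⟩ : ∃ i, j = i + 1 := ⟨j - 1, by omega⟩
  exact (main i hjk).1

end PQ
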